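import Pool.Agent.MP_129fce_an.Construct

/-! Boundary data of a peak function. -/

namespace Pool.Agent.MP_129fce_an.Lz

open Metric Set Real ComplexConjugate

/-- The properties of `θ ↦ 1 - f (exp (i θ))` that are used. -/
structure Data (α : ℝ) (H : ℝ → ℂ) (C A : ℝ) : Prop where
  C0 : 0 < C
  cont : Continuous H
  re0 : ∀ t, 0 ≤ (H t).re
  hol : ∀ s t, ‖H s - H t‖ ≤ C * |s - t| ^ α
  mean : ∀ η : ℝ, 0 < η → ∫ t in (-(2 * π))..(4 * π), ((H t + η)⁻¹).re ≤ A
  asc : ∀ a b y : ℝ, a ≤ b → 0 < y →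
    y * ((H b).im - (H a).im) ≤ (∫ t in a..b, (H t).re) + 4 * (C * y ^ α) * y

section
variable {α C : ℝ} {h : ℂ → ℂ}

theorem radial (h0 : 0 < α) (h1 : α ≤ 1) (hC : 0 < C) (hd : DiffContOnCl ℂ h (ball 0 1))
    (hH : ∀ z ∈ sphere (0 : ℂ) 1, ∀ w ∈ sphere (0 : ℂ) 1, ‖h z - h w‖ ≤ C * ‖z - w‖ ^ α)
    {w : ℂ} (hw : ‖w‖ = 1) {r y : ℝ} (hy : 0 < y) (hr0 : 0 ≤ r) (hr1 : r ≤ 1) (hr : 1 - r ≤ y) :
    ‖h (r * w) - h w‖ ≤ 2 * (C * y ^ α) := by
  have hre : ∀ z : ℂ, ‖z‖ ≤ 1 → 0 < (1 - z * conj w + y).re := by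
    intro z hz
    have := u_re hw hz
    simp only [Complex.add_re, Complex.ofReal_re]
    linarith
  have hne : ∀ z : ℂ, ‖z‖ ≤ 1 → 0 < ‖1 - z * conj w + y‖ := fun z hz =>
    (hre z hz).trans_le (Complex.re_le_norm _)
  have hd2 : DiffContOnCl ℂ (fun z : ℂ => (1 - z * conj w + y) ^ (-α : ℂ)) (ball 0 1) := by
    apply DifferentiableOn.diffContOnCl
    rw [closure_ball _ one_ne_zero]
    intro z hz
    refine (DifferentiableAt.cpow_const (by fun_prop) ?_).differentiableWithinAt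
    exact Or.inl (hre z (mem_closedBall_zero_iff.1 hz))
  have hn : ∀ z : ℂ, ‖(h z - h w) • (1 - z * conj w + y) ^ (-α : ℂ)‖ =
      ‖h z - h w‖ * ‖1 - z * conj w + y‖ ^ (-α) := by
    intro z
    rw [smul_eq_mul, norm_mul, ← Complex.ofReal_neg, Complex.norm_cpow_real]
  have hz : ‖(r : ℂ) * w‖ ≤ 1 := by
    rw [norm_mul, hw, mul_one, Complex.norm_real, Real.norm_eq_abs, abs_of_nonneg hr0]; exact hr1
  have key := Complex.norm_le_of_forall_mem_frontier_norm_le (C := C) isBounded_ball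
    ((hd.sub_const (h w)).smul hd2) (z := r * w) (by
      intro z hz
      rw [frontier_ball _ one_ne_zero] at hz
      have hz1 := mem_sphere_zero_iff_norm.1 hz
      have a1 := hH z hz w (mem_sphere_zero_iff_norm.2 hw)
      have a2 := norm_le_norm_add_real (u_re hw hz1.le) hy.le
      rw [u_norm hw] at a2
      have a3 := hne z hz1.le
      change ‖(h z - h w) • (1 - z * conj w + y) ^ (-α : ℂ)‖ ≤ C
      rw [hn, rpow_neg a3.le, ← div_eq_mul_inv, div_le_iff₀ (by positivity)]
      exact a1.trans (by gcongr))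
    (by rw [closure_ball _ one_ne_zero]; exact mem_closedBall_zero_iff.2 hz)
  change ‖(h (r * w) - h w) • (1 - r * w * conj w + y) ^ (-α : ℂ)‖ ≤ C at key
  have a3 := hne _ hz
  rw [hn, rpow_neg a3.le, ← div_eq_mul_inv, div_le_iff₀ (by positivity)] at key
  have a4 : ‖1 - r * w * conj w + y‖ ≤ 2 * y := by
    have e : (1 : ℂ) - r * w * conj w + y = ((1 - r + y : ℝ) : ℂ) := by
      rw [mul_assoc, Complex.mul_conj, Complex.normSq_eq_norm_sq, hw]; push_cast; ring
    rw [e, Complex.norm_real, Real.norm_eq_abs, abs_of_nonneg (by linarith)]; linarith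
  have a5 : (2 : ℝ) ^ α ≤ 2 := by
    calc (2 : ℝ) ^ α ≤ 2 ^ (1 : ℝ) := by gcongr; norm_num
      _ = 2 := rpow_one 2
  calc _ ≤ C * (2 * y) ^ α := key.trans (by gcongr)
    _ = C * (2 ^ α * y ^ α) := by rw [mul_rpow (by norm_num) hy.le]
    _ ≤ C * (2 * y ^ α) := by gcongr
    _ = _ := by ring

theorem ascent (hd : DiffContOnCl ℂ h (ball 0 1)) (hre : ∀ z : ℂ, ‖z‖ ≤ 1 → 0 ≤ (h z).re)
    {a b y K : ℝ} (hab : a ≤ b) (hy : 0 < y)
    (hK : ∀ (θ r : ℝ), 0 ≤ r → r ≤ 1 → 1 - r ≤ y →
      ‖h (r * circleMap 0 1 θ) - h (circleMap 0 1 θ)‖ ≤ K) :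
    y * ((h (circleMap 0 1 b)).im - (h (circleMap 0 1 a)).im) ≤
      (∫ t in a..b, (h (circleMap 0 1 t)).re) + 2 * K * y := by
  have hc : ContinuousOn h (closedBall 0 1) := by
    have := hd.continuousOn
    rwa [closure_ball _ one_ne_zero] at this
  have hn : ∀ w : ℂ, ‖Complex.exp (w * Complex.I)‖ = exp (-w.im) := by
    intro w; rw [Complex.norm_exp]; simp
  have he : ∀ x t : ℝ, Complex.exp ((x + t * Complex.I) * Complex.I) =
      (exp (-t) : ℝ) * circleMap 0 1 x := by
    intro x t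
    rw [circleMap_zero, Complex.ofReal_one, one_mul, Complex.ofReal_exp, ← Complex.exp_add]
    congr 1
    push_cast
    linear_combination (t : ℂ) * Complex.I_sq
  have hb : ∀ x t : ℝ, 0 ≤ t → ‖((exp (-t) : ℝ) : ℂ) * circleMap 0 1 x‖ ≤ 1 := by
    intro x t ht
    rw [← he, hn]; simpa using ht
  have key := Complex.integral_boundary_rect_eq_zero_of_continuousOn_of_differentiableOn
    (fun w => h (Complex.exp (w * Complex.I))) a (b + y * Complex.I) (by
      refine hc.comp (by fun_prop) fun w hw => ?_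
      have := hw.2
      simp only [Complex.ofReal_im, Complex.add_im, Complex.mul_im, Complex.ofReal_re,
        Complex.I_im, mul_one, Complex.I_re, mul_zero, add_zero, zero_add, mem_preimage,
        uIcc_of_le hy.le] at this
      rw [mem_closedBall_zero_iff, hn]; simpa using this.1) (by
      refine hd.differentiableOn.comp (by fun_prop) fun w hw => ?_
      have := hw.2
      simp only [Complex.ofReal_im, Complex.add_im, Complex.mul_im, Complex.ofReal_re,
        Complex.I_im, mul_one, Complex.I_re, mul_zero, add_zero, zero_add, mem_preimage,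
        min_eq_left hy.le] at this
      rw [mem_ball_zero_iff, hn]; simpa using this.1)
  simp only [Complex.ofReal_im, Complex.add_im, Complex.mul_im, Complex.ofReal_re,
    Complex.I_im, mul_one, Complex.I_re, mul_zero, add_zero, zero_add, Complex.add_re,
    Complex.mul_re, sub_self, he, neg_zero, exp_zero, Complex.ofReal_one, one_mul] at key
  have c1 : ∀ t : ℝ, 0 ≤ t → Continuous fun x : ℝ => h ((exp (-t) : ℝ) * circleMap 0 1 x) :=
    fun t ht => hc.comp_continuous (by fun_prop) fun x => mem_closedBall_zero_iff.2 (hb x t ht)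
  have c0 : Continuous fun x : ℝ => h (circleMap 0 1 x) := by simpa using c1 0 le_rfl
  have c2 : ∀ x : ℝ, IntervalIntegrable (fun t : ℝ => h ((exp (-t) : ℝ) * circleMap 0 1 x))
      MeasureTheory.volume 0 y := by
    intro x
    refine ContinuousOn.intervalIntegrable (hc.comp (by fun_prop) fun t ht => ?_)
    rw [uIcc_of_le hy.le] at ht
    exact mem_closedBall_zero_iff.2 (hb x t ht.1)
  have r1 : (∫ x in a..b, h (circleMap 0 1 x)).re = ∫ x in a..b, (h (circleMap 0 1 x)).re :=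
    (Complex.reCLM.intervalIntegral_comp_comm (c0.intervalIntegrable a b)).symm
  have r2 : 0 ≤ (∫ x in a..b, h ((exp (-y) : ℝ) * circleMap 0 1 x)).re := by
    rw [← Complex.reCLM_apply,
      ← Complex.reCLM.intervalIntegral_comp_comm ((c1 y hy.le).intervalIntegrable a b)]
    exact intervalIntegral.integral_nonneg hab fun x _ => hre _ (hb x y hy.le)
  have r3 : ∀ x : ℝ, |(∫ t in (0 : ℝ)..y, h ((exp (-t) : ℝ) * circleMap 0 1 x)).im -
      y * (h (circleMap 0 1 x)).im| ≤ K * y := by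
    intro x
    have e : (∫ t in (0 : ℝ)..y, h ((exp (-t) : ℝ) * circleMap 0 1 x)).im -
        y * (h (circleMap 0 1 x)).im = (∫ t in (0 : ℝ)..y,
          (h ((exp (-t) : ℝ) * circleMap 0 1 x) - h (circleMap 0 1 x))).im := by
      rw [intervalIntegral.integral_sub (c2 x) intervalIntegrable_const]
      simp
    rw [e]
    refine (Complex.abs_im_le_norm _).trans ?_
    have := intervalIntegral.norm_integral_le_of_norm_le_const (a := 0) (b := y) (C := K)
      (f := fun t : ℝ => h ((exp (-t) : ℝ) * circleMap 0 1 x) - h (circleMap 0 1 x)) (by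
        intro t ht
        rw [uIoc_of_le hy.le] at ht
        refine hK x _ (exp_pos _).le (by simpa using ht.1.le) ?_
        linarith [add_one_le_exp (-t), ht.2])
    rwa [sub_zero, abs_of_pos hy] at this
  have k2 := congrArg Complex.re key
  simp only [smul_eq_mul, Complex.sub_re, Complex.add_re, Complex.mul_re, Complex.I_re, zero_mul,
    Complex.I_im, one_mul, zero_sub, Complex.zero_re] at k2
  have a1 := abs_le.1 (r3 a)
  have a2 := abs_le.1 (r3 b)
  rw [r1] at k2
  linarith [a1.1, a1.2, a2.1, a2.2]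

theorem mean_le (hd : DiffContOnCl ℂ h (ball 0 1)) (hre : ∀ z : ℂ, ‖z‖ ≤ 1 → 0 ≤ (h z).re)
    (h00 : h 0 ≠ 0) {η : ℝ} (hη : 0 < η) :
    ∫ t in (-(2 * π))..(4 * π), ((h (circleMap 0 1 t) + η)⁻¹).re ≤ 6 * π * ‖h 0‖⁻¹ := by
  have hne : ∀ z ∈ closure (ball (0 : ℂ) 1), h z + η ≠ 0 := by
    intro z hz
    rw [closure_ball _ one_ne_zero] at hz
    exact norm_pos_iff.1 (hη.trans_le
      (real_le_norm_add_real (hre z (mem_closedBall_zero_iff.1 hz)) η))
  have hd2 : DiffContOnCl ℂ (fun z => (h z + η)⁻¹) (ball 0 |1|) := by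
    rw [abs_one]
    exact (hd.add_const (η : ℂ)).inv hne
  have c0 : Continuous fun t : ℝ => (h (circleMap 0 1 t) + η)⁻¹ := by
    refine hd2.continuousOn.comp_continuous (continuous_circleMap 0 1) fun t => ?_
    rw [abs_one, closure_ball _ one_ne_zero]
    simp
  have hm := hd2.circleAverage
  rw [circleAverage_def, inv_smul_eq_iff₀ (by positivity)] at hm
  have hp : Function.Periodic (fun t : ℝ => (h (circleMap 0 1 t) + η)⁻¹) (2 * π) :=
    fun t => by simp only [periodic_circleMap 0 1 t]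
  have e3 := hp.intervalIntegral_add_zsmul_eq 3 (-(2 * π)) (fun s t => c0.intervalIntegrable s t)
  rw [hp.intervalIntegral_add_eq (-(2 * π)) 0, zero_add, hm,
    show -(2 * π) + (3 : ℤ) • (2 * π) = 4 * π by simp only [zsmul_eq_mul]; push_cast; ring] at e3
  have r1 := Complex.reCLM.intervalIntegral_comp_comm (μ := MeasureTheory.volume)
    (c0.intervalIntegrable (-(2 * π)) (4 * π))
  simp only [Complex.reCLM_apply] at r1
  rw [r1, e3]
  refine (Complex.re_le_norm _).trans ?_
  have a1 := norm_le_norm_add_real (hre 0 (by simp)) hη.le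
  have a2 := inv_anti₀ (norm_pos_iff.2 h00) a1
  rw [norm_smul, norm_smul, norm_inv, Real.norm_eq_abs, abs_of_pos (by positivity)]
  have : ‖(3 : ℤ)‖ = 3 := by simp [Int.norm_eq_abs]
  rw [this]
  nlinarith [pi_pos]

end

theorem exists_data {α : ℝ} (h0 : 0 < α) (h1 : α ≤ 1) {E : Set ℂ} (hE : IsPeakSet α E)
    (hne : E ≠ sphere 0 1) :
    ∃ (H : ℝ → ℂ) (C A : ℝ), Data α H C A ∧ ∀ t, circleMap 0 1 t ∈ E → H t = 0 := by
  obtain ⟨-, hsub, f, ⟨ha, hc, C, hC⟩, hf1, hf2⟩ := hE
  have hd : DiffContOnCl ℂ f (ball 0 1) :=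
    ⟨ha.differentiableOn, by rwa [closure_ball _ one_ne_zero]⟩
  have hle : ∀ z : ℂ, ‖z‖ ≤ 1 → ‖f z‖ ≤ 1 := fun z hz =>
    Complex.norm_le_of_forall_mem_frontier_norm_le isBounded_ball hd (by
      intro w hw
      rw [frontier_ball _ one_ne_zero] at hw
      by_cases h : w ∈ E
      · rw [hf1 w h, norm_one]
      · exact (hf2 w hw h).le)
      (by rw [closure_ball _ one_ne_zero]; exact mem_closedBall_zero_iff.2 hz)
  have hd' : DiffContOnCl ℂ (fun z => 1 - f z) (ball 0 1) := hd.const_sub 1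
  have hre : ∀ z : ℂ, ‖z‖ ≤ 1 → 0 ≤ (1 - f z).re := by
    intro z hz
    have := (Complex.re_le_norm (f z)).trans (hle z hz)
    simp only [Complex.sub_re, Complex.one_re]
    linarith
  have h00 : 1 - f 0 ≠ 0 := by
    intro h
    have hf0 : f 0 = 1 := (sub_eq_zero.1 h).symm
    obtain ⟨w, hw, hwE⟩ := exists_of_ssubset (ssubset_of_subset_of_ne hsub hne)
    have := Complex.norm_eqOn_closedBall_of_isMaxOn hd (fun z hz => by
      have := hle z (mem_ball_zero_iff.1 hz).le
      simpa [hf0] using this) (sphere_subset_closedBall hw)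
    simp only [Function.comp, Function.const, hf0, norm_one] at this
    exact (hf2 w hw hwE).ne this
  have hH : ∀ z ∈ sphere (0 : ℂ) 1, ∀ w ∈ sphere (0 : ℂ) 1,
      ‖(1 - f z) - (1 - f w)‖ ≤ max C 1 * ‖z - w‖ ^ α := by
    intro z hz w hw
    rw [sub_sub_sub_cancel_left, norm_sub_rev]
    exact (hC z hz w hw).trans (by gcongr; exact le_max_left _ _)
  have hC0 : 0 < max C 1 := one_pos.trans_le (le_max_right _ _)
  refine ⟨fun t => 1 - f (circleMap 0 1 t), max C 1, 6 * π * ‖1 - f 0‖⁻¹,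
    ⟨hC0, ?_, fun t => hre _ (by simp), fun s t => ?_, fun η hη => mean_le hd' hre h00 hη,
      fun a b y hab hy => ?_⟩, fun t ht => by simp [hf1 _ ht]⟩
  · exact continuous_const.sub
      (hc.comp_continuous (continuous_circleMap 0 1) fun t => by simp)
  · exact (hH _ (by simp) _ (by simp)).trans (by gcongr; exact chord_le s t)
  · have := ascent hd' hre hab hy (K := 2 * (max C 1 * y ^ α)) fun θ r a1 a2 a3 =>
      radial h0 h1 hC0 hd' hH (by simp) hy a1 a2 a3
    linarith

end Pool.Agent.MP_129fce_an.Lz
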