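import Mathlib

/-! From the two counting inequalities to the summability of `2 ^ k * m k ^ β`. -/

namespace Pool.Agent.MP_129fce_an.Lz

open Real Finset

theorem tele_geom {r x : ℝ} (hr0 : 0 < r) (hr1 : r < 1) (hx : 0 ≤ x) (P : ℕ → Prop)
    [DecidablePred P] (hP : ∀ j, P j → r ^ j ≤ x) (J : ℕ) :
    ∑ j ∈ range J, (if P j then r ^ j else 0) ≤ x / (1 - r) := by
  have h1 : ∀ j, (if P j then r ^ j else 0) * (1 - r) ≤ min x (r ^ j) - min x (r ^ (j + 1)) := by
    intro j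
    have a1 : r ^ (j + 1) ≤ r ^ j := pow_le_pow_of_le_one hr0.le hr1.le (Nat.le_succ j)
    split_ifs with h
    · rw [min_eq_right (hP j h), min_eq_right (a1.trans (hP j h)), pow_succ]
      linarith
    · rw [zero_mul, sub_nonneg]
      exact min_le_min_left _ a1
  rw [le_div_iff₀ (by linarith), sum_mul]
  refine (sum_le_sum fun j _ => h1 j).trans ?_
  rw [sum_range_sub' (fun j => min x (r ^ j))]
  have : 0 ≤ min x (r ^ J) := le_min hx (by positivity)
  linarith [min_le_left x (r ^ 0)]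

theorem tele_two {M : ℝ} (hM : 0 ≤ M) (K : ℕ) :
    ∑ k ∈ range K, (if (2 : ℝ) ^ k < M then (2 : ℝ) ^ k else 0) ≤ 2 * M := by
  have h1 : ∀ k : ℕ, (if (2 : ℝ) ^ k < M then (2 : ℝ) ^ k else 0) ≤
      min (2 ^ (k + 1)) (2 * M) - min (2 ^ k) (2 * M) := by
    intro k
    have a0 : (0 : ℝ) < 2 ^ k := by positivity
    split_ifs with h
    · rw [pow_succ, min_eq_left (by linarith), min_eq_left (by linarith)]
      linarith
    · rw [sub_nonneg, pow_succ]
      exact min_le_min_right _ (by linarith)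
  refine (sum_le_sum fun k _ => h1 k).trans ?_
  rw [sum_range_sub (fun k => min ((2 : ℝ) ^ k) (2 * M))]
  have : 0 ≤ min ((2 : ℝ) ^ 0) (2 * M) := le_min (by positivity) (by positivity)
  linarith [min_le_right ((2 : ℝ) ^ K) (2 * M)]

theorem comb {ι : Type} (w : ι → ℝ) (m : ℕ → ℝ) {β A B L : ℝ} (hβ : 1 < β) (hm0 : ∀ k, 0 ≤ m k)
    (hmL : ∀ k, m k ≤ L)
    (h1 : ∀ η, 0 < η → ∀ F : Finset ι, (∀ i ∈ F, η ≤ w i) → ∑ i ∈ F, w i ^ (β - 1) ≤ B)
    (h2 : ∀ ε, 0 < ε → ∀ (k : ℕ) (F : Finset ι), (∀ i, ε < w i → i ∈ F) →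
      m k ≤ A * ε + 4 * (1 / 2) ^ k * F.card) :
    Summable fun k : ℕ => (2 : ℝ) ^ k * m k ^ β := by
  classical
  have hγ : 0 < β - 1 := by linarith
  obtain ⟨r, hr⟩ : ∃ r : ℝ, r = (1 / 2) ^ (β - 1) := ⟨_, rfl⟩
  have hr0 : 0 < r := by rw [hr]; positivity
  have hr1 : r < 1 := by rw [hr]; exact rpow_lt_one (by norm_num) (by norm_num) hγ
  have hrj : ∀ j : ℕ, r ^ j = ((1 / 2 : ℝ) ^ j) ^ (β - 1) := fun j => by
    rw [hr, ← rpow_natCast, ← rpow_mul (by norm_num), mul_comm, rpow_mul (by norm_num),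
      rpow_natCast]
  have hfin : ∀ j : ℕ, {i | (1 / 2 : ℝ) ^ j < w i}.Finite := by
    intro j
    by_contra hinf
    obtain ⟨n, hn⟩ := exists_nat_gt (B / r ^ j)
    obtain ⟨F, hF, hc⟩ := Set.Infinite.exists_subset_card_eq hinf n
    have a1 := h1 ((1 / 2) ^ j) (by positivity) F fun i hi => le_of_lt (hF hi)
    have a2 := card_nsmul_le_sum F (fun i => w i ^ (β - 1)) (r ^ j) fun i hi => by
      rw [hrj]
      exact rpow_le_rpow (by positivity) (le_of_lt (hF hi)) hγ.le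
    rw [hc, nsmul_eq_mul] at a2
    rw [div_lt_iff₀ (by positivity)] at hn
    linarith
  obtain ⟨F, hF⟩ : ∃ F : ℕ → Finset ι, ∀ j i, i ∈ F j ↔ (1 / 2 : ℝ) ^ j < w i :=
    ⟨fun j => (hfin j).toFinset, fun j i => by simp⟩
  have hS : ∀ J, ∑ j ∈ range J, ((F j).card : ℝ) * r ^ j ≤ B / (1 - r) := by
    intro J
    have e : ∀ j ∈ range J, ((F j).card : ℝ) * r ^ j =
        ∑ i ∈ F J, if (1 / 2 : ℝ) ^ j < w i then r ^ j else 0 := by
      intro j hj
      rw [← sum_filter, sum_const, nsmul_eq_mul]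
      congr 3
      ext i
      rw [mem_filter, hF, hF]
      exact ⟨fun h => ⟨(pow_le_pow_of_le_one (by norm_num) (by norm_num)
        (mem_range.1 hj).le).trans_lt h, h⟩, fun h => h.2⟩
    rw [sum_congr rfl e, sum_comm]
    have hw : ∀ i ∈ F J, 0 < w i := fun i hi => lt_trans (by positivity) ((hF J i).1 hi)
    refine (sum_le_sum fun i hi => tele_geom hr0 hr1 (rpow_nonneg (hw i hi).le (β - 1)) _
      (fun j hj => by rw [hrj]; exact rpow_le_rpow (by positivity) hj.le hγ.le) J).trans ?_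
    rw [← sum_div]
    exact div_le_div_of_nonneg_right
      (h1 ((1 / 2) ^ J) (by positivity) _ fun i hi => ((hF J i).1 hi).le) (by linarith)
  obtain ⟨M, hM⟩ : ∃ M : ℕ → ℝ, ∀ j, M j = (((F j).card : ℝ) + 1) * 2 ^ j := ⟨_, fun _ => rfl⟩
  have hex : ∀ k : ℕ, (2 : ℝ) ^ k < M (k + 1) := fun k => by
    rw [hM, pow_succ]
    nlinarith [Nat.cast_nonneg (α := ℝ) (F (k + 1)).card, pow_pos (show (0 : ℝ) < 2 by norm_num) k]
  obtain ⟨Lb, hLb⟩ : ∃ Lb, Lb = max L (2 * (A + 4)) := ⟨_, rfl⟩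
  have hL0 : 0 ≤ Lb := hLb ▸ ((hm0 0).trans (hmL 0)).trans (le_max_left _ _)
  have hk : ∀ k : ℕ, ∃ j ≤ k + 1, (2 : ℝ) ^ k < M j ∧ m k ≤ Lb * (1 / 2) ^ j := by
    intro k
    have hx : ∃ j, (2 : ℝ) ^ k < M j := ⟨_, hex k⟩
    refine ⟨Nat.find hx, Nat.find_min' hx (hex k), Nat.find_spec hx, ?_⟩
    rcases hj : Nat.find hx with _ | j
    · rw [pow_zero, mul_one, hLb]
      exact (hmL k).trans (le_max_left _ _)
    · have a1 := not_lt.1 (Nat.find_min hx (show j < Nat.find hx by omega))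
      have a2 := h2 ((1 / 2) ^ j) (by positivity) k (F j) fun i hi => (hF j i).2 hi
      have a3 : (1 / 2 : ℝ) ^ k * (F j).card ≤ (1 / 2) ^ j := by
        rw [hM] at a1
        rw [one_div_pow, one_div_pow, div_mul_eq_mul_div, one_mul,
          div_le_div_iff₀ (by positivity) (by positivity)]
        nlinarith [pow_pos (show (0 : ℝ) < 2 by norm_num) j]
      have a4 : 2 * (A + 4) * (1 / 2 : ℝ) ^ (j + 1) ≤ Lb * (1 / 2) ^ (j + 1) :=
        mul_le_mul_of_nonneg_right (hLb ▸ le_max_right _ _) (by positivity)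
      rw [pow_succ] at a4 ⊢
      linarith
  refine summable_of_sum_range_le (c := Lb ^ β * (2 * (B / (1 - r) + 1 / (1 - r))))
    (fun k => mul_nonneg (by positivity) (rpow_nonneg (hm0 k) _)) fun K => ?_
  have hterm : ∀ k ∈ range K, (2 : ℝ) ^ k * m k ^ β ≤ Lb ^ β * ∑ j ∈ range (K + 1),
      (if (2 : ℝ) ^ k < M j then (2 : ℝ) ^ k else 0) * ((1 / 2) ^ j * r ^ j) := by
    intro k hkK
    obtain ⟨j, j1, j2, j3⟩ := hk k
    have a1 : m k ^ β ≤ Lb ^ β * ((1 / 2) ^ j * r ^ j) := by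
      refine (rpow_le_rpow (hm0 k) j3 (by linarith)).trans_eq ?_
      rw [mul_rpow hL0 (by positivity), hrj, rpow_sub_one (by positivity)]
      field_simp
    have a2 := single_le_sum (s := range (K + 1)) (a := j)
      (f := fun j => (if (2 : ℝ) ^ k < M j then (2 : ℝ) ^ k else 0) * ((1 / 2) ^ j * r ^ j))
      (fun i _ => by split_ifs <;> positivity) (by rw [mem_range] at *; omega)
    simp only [if_pos j2] at a2
    calc _ ≤ (2 : ℝ) ^ k * (Lb ^ β * ((1 / 2) ^ j * r ^ j)) := by gcongr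
      _ = Lb ^ β * (2 ^ k * ((1 / 2) ^ j * r ^ j)) := by ring
      _ ≤ _ := by gcongr
  refine (sum_le_sum hterm).trans ?_
  rw [← mul_sum, sum_comm]
  refine mul_le_mul_of_nonneg_left ?_ (by positivity)
  have hj : ∀ j ∈ range (K + 1), ∑ k ∈ range K,
      (if (2 : ℝ) ^ k < M j then (2 : ℝ) ^ k else 0) * ((1 / 2) ^ j * r ^ j) ≤
        2 * (((F j).card : ℝ) * r ^ j + r ^ j) := by
    intro j _
    rw [← sum_mul]
    refine (mul_le_mul_of_nonneg_right (tele_two (by rw [hM]; positivity) K)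
      (by positivity)).trans_eq ?_
    rw [hM, one_div_pow]
    field_simp
  refine (sum_le_sum hj).trans ?_
  rw [← mul_sum, sum_add_distrib]
  have a1 := tele_geom hr0 hr1 zero_le_one (fun _ => True)
    (fun j _ => pow_le_one₀ hr0.le hr1.le) (K + 1)
  simp only [if_true] at a1
  linarith [hS (K + 1)]

end Pool.Agent.MP_129fce_an.Lz
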