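import Pool.Agent.MP_129fce_an.Lz.An

/-! Estimates on the gaps of the zero set. -/

namespace Pool.Agent.MP_129fce_an.Lz

open Metric Set Real MeasureTheory

/-- A gap of the zero set of `H`. -/
def Gap (H : ℝ → ℂ) (p : ℝ × ℝ) : Prop :=
  -(2 * π) ≤ p.1 ∧ p.1 < p.2 ∧ p.2 ≤ 4 * π ∧ H p.1 = 0 ∧ H p.2 = 0 ∧ ∀ s ∈ Ioo p.1 p.2, H s ≠ 0

theorem Gap.eq_of_mem {H : ℝ → ℂ} {p q : ℝ × ℝ} (hp : Gap H p) (hq : Gap H q) {t : ℝ}
    (h1 : t ∈ Ioc p.1 p.2) (h2 : t ∈ Ioc q.1 q.2) : p = q := by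
  obtain ⟨-, p1, -, p2, p3, p4⟩ := hp
  obtain ⟨-, q1, -, q2, q3, q4⟩ := hq
  have e1 : p.1 = q.1 := by
    rcases lt_trichotomy p.1 q.1 with h | h | h
    · exact absurd q2 (p4 _ ⟨h, h2.1.trans_le h1.2⟩)
    · exact h
    · exact absurd p2 (q4 _ ⟨h, h1.1.trans_le h2.2⟩)
  refine Prod.ext e1 ?_
  rcases lt_trichotomy p.2 q.2 with h | h | h
  · exact absurd p3 (q4 _ ⟨e1 ▸ p1, h⟩)
  · exact h
  · exact absurd q3 (p4 _ ⟨e1 ▸ q1, h⟩)

theorem exists_gap {H : ℝ → ℂ} (hc : Continuous H) {x t z : ℝ} (hx : H x = 0) (hz : H z = 0)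
    (h1 : x ≤ t) (h2 : t ≤ z) (ht : H t ≠ 0) (h3 : -(2 * π) ≤ x) (h4 : z ≤ 4 * π) :
    ∃ p, Gap H p ∧ p.1 < t ∧ t < p.2 := by
  have hZ : IsClosed {s | H s = 0} := isClosed_eq hc continuous_const
  obtain ⟨a, ha, ha'⟩ := ((isCompact_Icc (a := x) (b := t)).inter_right hZ).exists_isGreatest
    ⟨x, ⟨le_rfl, h1⟩, hx⟩
  obtain ⟨b, hb, hb'⟩ := ((isCompact_Icc (a := t) (b := z)).inter_right hZ).exists_isLeast
    ⟨z, ⟨h2, le_rfl⟩, hz⟩
  have a1 : a < t := lt_of_le_of_ne ha.1.2 fun h => ht (h ▸ ha.2)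
  have b1 : t < b := lt_of_le_of_ne hb.1.1 fun h => ht (h ▸ hb.2)
  refine ⟨(a, b), ⟨h3.trans ha.1.1, a1.trans b1, hb.1.2.trans h4, ha.2, hb.2, fun s hs h => ?_⟩,
    a1, b1⟩
  rcases le_total s t with h' | h'
  · exact (ha' ⟨⟨ha.1.1.trans hs.1.le, h'⟩, h⟩).not_gt hs.1
  · exact (hb' ⟨⟨h', hs.2.le.trans hb.1.2⟩, h⟩).not_gt hs.2

theorem re_inv_ge {u : ℂ} (hu : 0 ≤ u.re) {η W : ℝ} (hη : 0 < η) (h1 : η ≤ W) (h2 : ‖u‖ ≤ W) :
    (4 * W ^ 2)⁻¹ * u.re ≤ ((u + η)⁻¹).re := by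
  rw [Complex.inv_re, Complex.normSq_eq_norm_sq]
  have h3 : ‖u + η‖ ≤ 2 * W := by
    have := norm_add_le u (η : ℂ)
    rw [Complex.norm_real, Real.norm_eq_abs, abs_of_pos hη] at this
    linarith
  have h4 : 0 < ‖u + η‖ := hη.trans_le (real_le_norm_add_real hu η)
  simp only [Complex.add_re, Complex.ofReal_re]
  calc (4 * W ^ 2)⁻¹ * u.re = u.re / (2 * W) ^ 2 := by rw [mul_pow, div_eq_inv_mul]; norm_num
    _ ≤ _ := by gcongr; linarith

namespace Data
variable {α C A : ℝ} {H : ℝ → ℂ} (D : Data α H C A)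
include D

theorem cre : Continuous fun t => (H t).re := Complex.continuous_re.comp D.cont

theorem cinv {η : ℝ} (hη : 0 < η) : Continuous fun t => ((H t + η)⁻¹).re :=
  Complex.continuous_re.comp ((D.cont.add continuous_const).inv₀ fun t =>
    norm_pos_iff.1 (hη.trans_le (real_le_norm_add_real (D.re0 t) η)))

theorem inv0 {η : ℝ} (hη : 0 < η) (t : ℝ) : 0 ≤ ((H t + η)⁻¹).re := by
  refine re_inv_nonneg ?_
  simp only [Complex.add_re, Complex.ofReal_re]
  linarith [D.re0 t]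

theorem int_le {η : ℝ} (hη : 0 < η) {S : Set ℝ} (hS : S ⊆ Ioc (-(2 * π)) (4 * π)) :
    ∫ t in S, ((H t + η)⁻¹).re ≤ A := by
  refine le_trans ?_ (D.mean η hη)
  rw [intervalIntegral.integral_of_le (by linarith [pi_pos])]
  exact setIntegral_mono_set ((D.cinv hη).intervalIntegrable _ _).1
    (Filter.Eventually.of_forall (D.inv0 hη)) hS.eventuallyLE

theorem gap_lower (h0 : 0 < α) {a b : ℝ} (hab : a ≤ b) (ha : H a = 0) (hb : H b = 0) :
    ∃ W, (∀ t ∈ Icc a b, ‖H t‖ ≤ W) ∧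
      W / 4 * (W / (16 * C)) ^ (1 / α) ≤ ∫ t in a..b, (H t).re := by
  have hC := D.C0
  obtain ⟨x, hx, hmax⟩ := (isCompact_Icc (a := a) (b := b)).exists_isMaxOn ⟨a, le_rfl, hab⟩
    D.cont.norm.continuousOn
  refine ⟨‖H x‖, fun t ht => hmax ht, ?_⟩
  have mono : ∀ s t, a ≤ s → s ≤ t → t ≤ b → ∫ t in s..t, (H t).re ≤ ∫ t in a..b, (H t).re :=
    fun s t h1 h2 h3 => intervalIntegral.integral_mono_interval h1 h2 h3
      (Filter.Eventually.of_forall D.re0) (D.cre.intervalIntegrable _ _)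
  obtain ⟨W, hW⟩ : ∃ W, W = ‖H x‖ := ⟨_, rfl⟩
  rw [← hW]
  rcases (hW ▸ norm_nonneg (H x) : 0 ≤ W).eq_or_lt with h | hW0
  · rw [← h, zero_div, zero_mul]
    exact intervalIntegral.integral_nonneg hab fun t _ => D.re0 t
  obtain ⟨y, hy⟩ : ∃ y, y = (W / (16 * C)) ^ (1 / α) := ⟨_, rfl⟩
  rw [← hy]
  have hy0 : 0 < y := by rw [hy]; positivity
  have hyα : C * y ^ α = W / 16 := by
    rw [hy, ← rpow_mul (by positivity), one_div_mul_cancel h0.ne', rpow_one]; field_simp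
  have hnear : ∀ t, |t - x| ≤ y → ‖H t - H x‖ ≤ W / 16 := fun t ht =>
    (D.hol t x).trans (by rw [← hyα]; gcongr)
  have h1 := Complex.norm_le_abs_re_add_abs_im (H x)
  rw [← hW, abs_of_nonneg (D.re0 x)] at h1
  by_cases h2 : W / 2 ≤ (H x).re
  · have h3 : x + y ≤ b := by
      by_contra h
      have := hnear b (by rw [abs_of_nonneg (by linarith [hx.2])]; linarith)
      rw [hb, zero_sub, norm_neg] at this
      linarith
    refine le_trans ?_ (mono x (x + y) hx.1 (by linarith) h3)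
    have := intervalIntegral.integral_mono_on (μ := volume) (a := x) (b := x + y)
      (f := fun _ => W / 4) (by linarith) intervalIntegrable_const
      (D.cre.intervalIntegrable _ _) (fun t ht => by
        have a1 := hnear t (by rw [abs_of_nonneg (by linarith [ht.1])]; linarith [ht.2])
        have a2 := (abs_le.1 ((Complex.abs_re_le_norm _).trans a1)).1
        rw [Complex.sub_re] at a2
        linarith)
    rw [intervalIntegral.integral_const, smul_eq_mul] at this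
    linarith
  · rcases le_total 0 (H x).im with h3 | h3
    · rw [abs_of_nonneg h3] at h1
      have a1 := D.asc a x y hx.1 hy0
      have a2 := mono a x le_rfl hx.1 hx.2
      rw [ha, hyα, Complex.zero_im] at a1
      nlinarith
    · rw [abs_of_nonpos h3] at h1
      have a1 := D.asc x b y hx.2 hy0
      have a2 := mono x b hx.1 hx.2 le_rfl
      rw [hb, hyα, Complex.zero_im] at a1
      nlinarith

theorem level_le {ε : ℝ} (hε : 0 < ε) :
    volume.real {t ∈ Ioc (-(2 * π)) (4 * π) | ‖H t‖ ≤ ε} ≤ 4 * A * ε := by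
  have hs : {t ∈ Ioc (-(2 * π)) (4 * π) | ‖H t‖ ≤ ε} ⊆ Ioc (-(2 * π)) (4 * π) := sep_subset _ _
  have h1 := setIntegral_ge_of_const_le_real (μ := volume) (c := 1 / (4 * ε))
    (f := fun t => ((H t + ε)⁻¹).re) (s := {t ∈ Ioc (-(2 * π)) (4 * π) | ‖H t‖ ≤ ε})
    (measurableSet_Ioc.inter (isClosed_le D.cont.norm continuous_const).measurableSet)
    (measure_ne_top_of_subset hs measure_Ioc_lt_top.ne)
    (fun t ht => re_inv_add_ge (D.re0 t) hε ht.2)
    (((D.cinv hε).intervalIntegrable _ _).1.mono_set hs)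
  have h2 := h1.trans (D.int_le hε hs)
  rw [one_div, ← div_eq_inv_mul, div_le_iff₀ (by positivity)] at h2
  linarith

theorem exists_weights (h0 : 0 < α) {E : Set ℂ} (hE : E ⊆ sphere 0 1)
    (hz : ∀ t, circleMap 0 1 t ∈ E → H t = 0) :
    ∃ (ι : Type) (w : ι → ℝ) (B : ℝ),
      (∀ η, 0 < η → ∀ F : Finset ι, (∀ i ∈ F, η ≤ w i) → ∑ i ∈ F, w i ^ (1 / α - 1) ≤ B) ∧
      ∀ ε δ, 0 < ε → 0 < δ → ∀ F : Finset ι, (∀ i, ε < w i → i ∈ F) →
        volume.real {θ ∈ Ico 0 (2 * π) | ∃ e ∈ E, ‖circleMap 0 1 θ - e‖ ≤ δ} ≤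
          4 * A * ε + 4 * δ * F.card := by
  have hC := D.C0
  choose w hw1 hw2 using fun p : {p // Gap H p} =>
    D.gap_lower h0 p.2.2.1.le p.2.2.2.2.1 p.2.2.2.2.2.1
  refine ⟨_, w, 16 * (16 * C) ^ (1 / α) * A, fun η hη F hF => ?_, fun ε δ hε hδ F hF => ?_⟩
  · have h1 := D.int_le hη (S := ⋃ p ∈ F, Ioc p.1.1 p.1.2) (by
      intro t ht
      simp only [mem_iUnion] at ht
      obtain ⟨p, -, ht⟩ := ht
      exact ⟨p.2.1.trans_lt ht.1, ht.2.trans p.2.2.2.1⟩)
    rw [integral_biUnion_finset F (fun _ _ => measurableSet_Ioc)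
      (fun p _ q _ hne => disjoint_left.2 fun t a b => hne (Subtype.ext (p.2.eq_of_mem q.2 a b)))
      (fun p _ => ((D.cinv hη).intervalIntegrable _ _).1)] at h1
    refine le_trans ?_ (mul_le_mul_of_nonneg_left h1 (by positivity))
    rw [Finset.mul_sum]
    refine Finset.sum_le_sum fun p hp => ?_
    have hW : 0 < w p := hη.trans_le (hF p hp)
    have h2 := intervalIntegral.integral_mono_on (μ := volume)
      (f := fun t => (4 * w p ^ 2)⁻¹ * (H t).re) p.2.2.1.le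
      ((continuous_const.mul D.cre).intervalIntegrable _ _) ((D.cinv hη).intervalIntegrable _ _)
      (fun t ht => re_inv_ge (D.re0 t) hη (hF p hp) (hw1 p t ht))
    rw [intervalIntegral.integral_const_mul, intervalIntegral.integral_of_le p.2.2.1.le
      (f := fun t => ((H t + η)⁻¹).re)] at h2
    have h3 := (mul_le_mul_of_nonneg_left (hw2 p) (by positivity)).trans h2
    refine le_trans (le_of_eq ?_) (mul_le_mul_of_nonneg_left h3 (by positivity))
    rw [div_rpow hW.le (by positivity), rpow_sub_one hW.ne']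
    field_simp
    norm_num
  · have hsub : {θ ∈ Ico 0 (2 * π) | ∃ e ∈ E, ‖circleMap 0 1 θ - e‖ ≤ δ} ⊆
        {t ∈ Ioc (-(2 * π)) (4 * π) | ‖H t‖ ≤ ε} ∪
          ⋃ p ∈ F, (Icc p.1.1 (p.1.1 + 2 * δ) ∪ Icc (p.1.2 - 2 * δ) p.1.2) := by
      rintro t ⟨ht, e, he, hd⟩
      have hπ := pi_pos
      by_cases h : ‖H t‖ ≤ ε
      · exact Or.inl ⟨⟨by linarith [ht.1], by linarith [ht.2]⟩, h⟩
      right
      obtain ⟨x, rfl⟩ : e ∈ range (circleMap 0 1) := by
        rw [range_circleMap, abs_one]; exact hE he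
      obtain ⟨φ, hφ, e⟩ := (periodic_circleMap 0 1).exists_mem_Ioc two_pi_pos x (t - π)
      rw [e] at he hd
      have a1 : |t - φ| ≤ 2 * δ := by
        have b1 : |t - φ| ≤ π := abs_le.2 ⟨by linarith [hφ.2], by linarith [hφ.1]⟩
        have b2 := mul_abs_le_abs_sin (x := (t - φ) / 2) (by rw [abs_div, abs_two]; linarith)
        rw [chord_eq] at hd
        rw [abs_div, abs_two] at b2
        have b3 : 1 / 2 ≤ 2 / π := by
          rw [div_le_div_iff₀ (by norm_num) pi_pos]; linarith [pi_le_four]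
        nlinarith [abs_nonneg (t - φ)]
      have z0 := hz φ he
      have z1 := hz (φ + 2 * π) (by rwa [periodic_circleMap 0 1 φ])
      have z2 := hz (φ - 2 * π) (by rwa [(periodic_circleMap 0 1).sub_eq φ])
      have hne : H t ≠ 0 := fun h' => h (by rw [h', norm_zero]; exact hε.le)
      obtain ⟨p, hp, p1, p2⟩ : ∃ p, Gap H p ∧ p.1 < t ∧ t < p.2 := by
        rcases le_total φ t with h' | h'
        · exact exists_gap D.cont z0 z1 h' (by linarith [hφ.1]) hne (by linarith [hφ.1, ht.1])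
            (by linarith [ht.2])
        · exact exists_gap D.cont z2 z0 (by linarith [hφ.2]) h' hne (by linarith [ht.1])
            (by linarith [hφ.2, ht.2])
      simp only [mem_iUnion]
      refine ⟨⟨p, hp⟩, hF _ ((not_le.1 h).trans_le (hw1 ⟨p, hp⟩ t ⟨p1.le, p2.le⟩)), ?_⟩
      have a2 := abs_le.1 a1
      by_cases h' : φ ≤ p.1
      · exact Or.inl ⟨p1.le, by linarith [a2.2]⟩
      · have : p.2 ≤ φ := not_lt.1 fun h'' => hp.2.2.2.2.2 φ ⟨not_le.1 h', h''⟩ z0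
        exact Or.inr ⟨by linarith [a2.1], p2.le⟩
    refine (measureReal_mono hsub ?_).trans ((measureReal_union_le _ _).trans
      (add_le_add (D.level_le hε) ((measureReal_biUnion_finset_le _ _).trans ?_)))
    · refine (measure_union_lt_top ((measure_mono (sep_subset _ _)).trans_lt measure_Ioc_lt_top)
        (measure_biUnion_lt_top F.finite_toSet fun p _ => ?_)).ne
      exact measure_union_lt_top measure_Icc_lt_top measure_Icc_lt_top
    · refine (Finset.sum_le_card_nsmul _ _ (4 * δ) fun p _ => ?_).trans (by simp [mul_comm])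
      refine (measureReal_union_le _ _).trans ?_
      rw [volume_real_Icc_of_le (by linarith), volume_real_Icc_of_le (by linarith)]
      linarith

end Data

end Pool.Agent.MP_129fce_an.Lz
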