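import Pool.Agent.MP_129fce_an.Construct

/-! The explicit set with spacing exponent `b`. -/

namespace Pool.Agent.MP_129fce_an.Lz

open Metric Filter Topology Set Real MeasureTheory

set_option linter.unusedSectionVars false

noncomputable def lam (b : ℝ) (j : ℕ) : ℝ := 8 * ((j : ℝ) + 1) ^ b
noncomputable def del (α b : ℝ) (j : ℕ) : ℝ := sj j ^ (1 / α) * lam b j
noncomputable def num (α b : ℝ) (j : ℕ) : ℕ := ⌊2 * sj j / del α b j⌋₊
abbrev Idx (α b : ℝ) : Type := Σ j : ℕ, Fin (num α b j)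
noncomputable def ang (α b : ℝ) (j k : ℕ) : ℝ := 2 * sj j + k * del α b j
noncomputable def pt (α b : ℝ) (i : Idx α b) : ℂ := circleMap 0 1 (ang α b i.1 i.2)
noncomputable def sc (α b : ℝ) (i : Idx α b) : ℝ := sj i.1

section
variable {α b : ℝ} (h0 : 0 < α) (h1 : α < 1) (hb : 1 < b)
include h0 h1 hb

theorem lam_ge (j : ℕ) : 8 * ((j : ℝ) + 1) ≤ lam b j := by
  unfold lam
  have : ((j : ℝ) + 1) ^ (1 : ℝ) ≤ ((j : ℝ) + 1) ^ b := by
    gcongr
    linarith [Nat.cast_nonneg (α := ℝ) j]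
  rw [rpow_one] at this; linarith

theorem lam_ge8 (j : ℕ) : 8 ≤ lam b j := by
  linarith [lam_ge h0 h1 hb j, Nat.cast_nonneg (α := ℝ) j]

theorem del_pos (j : ℕ) : 0 < del α b j :=
  mul_pos (rpow_pos_of_pos (sj_pos j) _) (by linarith [lam_ge8 h0 h1 hb j])

theorem num_mul (j : ℕ) : num α b j * del α b j ≤ 2 * sj j := by
  rw [← le_div_iff₀ (del_pos h0 h1 hb j)]
  exact Nat.floor_le (div_nonneg (by linarith [sj_pos j]) (del_pos h0 h1 hb j).le)

theorem ang_ge (j k : ℕ) : 2 * sj j ≤ ang α b j k :=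
  le_add_of_nonneg_right (mul_nonneg (Nat.cast_nonneg _) (del_pos h0 h1 hb j).le)

theorem ang_le (j k : ℕ) (hk : k ≤ num α b j) : ang α b j k ≤ 4 * sj j := by
  have : (k : ℝ) * del α b j ≤ num α b j * del α b j := by
    gcongr; exact (del_pos h0 h1 hb j).le
  unfold ang; linarith [num_mul h0 h1 hb j]

theorem pt_lo (i : Idx α b) : sc α b i ≤ ‖1 - pt α b i‖ := by
  have a1 := ang_ge h0 h1 hb i.1 i.2
  have a2 := ang_le h0 h1 hb i.1 i.2 i.2.2.le
  have a3 := sj_le i.1
  have a4 := sj_pos i.1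
  have := chord_ge (a := 0) (b := ang α b i.1 i.2) (by rw [zero_sub, abs_neg, abs_of_pos] <;> linarith)
  rw [zero_sub, abs_neg, abs_of_pos (by linarith)] at this
  simp only [circleMap_zero, Complex.ofReal_one, Complex.ofReal_zero, zero_mul, Complex.exp_zero,
    mul_one] at this
  simp only [sc, pt, circleMap_zero, Complex.ofReal_one]
  linarith

theorem pt_hi (i : Idx α b) : ‖1 - pt α b i‖ ≤ 4 * sc α b i := by
  have a1 := ang_ge h0 h1 hb i.1 i.2
  have a2 := ang_le h0 h1 hb i.1 i.2 i.2.2.le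
  have a4 := sj_pos i.1
  have := chord_le 0 (ang α b i.1 i.2)
  rw [zero_sub, abs_neg, abs_of_pos (by linarith)] at this
  simp only [circleMap_zero, Complex.ofReal_one, Complex.ofReal_zero, zero_mul, Complex.exp_zero,
    mul_one] at this
  simp only [sc, pt, circleMap_zero, Complex.ofReal_one]
  linarith

theorem rho_del (i : Idx α b) : 8 * rho α (sc α b) i ≤ del α b i.1 := by
  have := lam_ge8 h0 h1 hb i.1
  have h2 : 0 < sj i.1 ^ (1 / α) := rpow_pos_of_pos (sj_pos _) _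
  simp only [rho, sc, del]; nlinarith

theorem rho_le (i : Idx α b) : rho α (sc α b) i ≤ sc α b i / 4 := by
  have a1 := rho_del h0 h1 hb i
  have a2 := num_mul h0 h1 hb i.1
  have a3 : (1 : ℝ) ≤ num α b i.1 := by exact_mod_cast i.2.pos
  have a4 := del_pos h0 h1 hb i.1
  simp only [sc] at *
  nlinarith

theorem near_unique (z : ℂ) (i k : Idx α b) (hi : ‖z - pt α b i‖ < sc α b i / 4)
    (hk : ‖z - pt α b k‖ < sc α b k / 4) : i.1 = k.1 := by
  have gen : ∀ i k : Idx α b, ‖z - pt α b i‖ < sc α b i / 4 → ‖z - pt α b k‖ < sc α b k / 4 →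
      ¬ i.1 < k.1 := by
    intro i k hi hk hlt
    have a1 := sj_lt hlt
    have a2 := pt_lo h0 h1 hb i
    have a3 := pt_hi h0 h1 hb k
    have a4 := norm_sub_le_norm_sub_add_norm_sub 1 z (pt α b i)
    have a5 := norm_sub_le_norm_sub_add_norm_sub 1 (pt α b k) z
    rw [norm_sub_rev (pt α b k) z] at a5
    have := sj_pos k.1
    simp only [sc] at *
    linarith
  exact le_antisymm (not_lt.1 (gen k i hk hi)) (not_lt.1 (gen i k hi hk))

theorem pt_sep (j : ℕ) (k l : Fin (num α b j)) :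
    |(k : ℝ) - l| * del α b j / 2 ≤ ‖pt α b ⟨j, k⟩ - pt α b ⟨j, l⟩‖ := by
  have e : ang α b j k - ang α b j l = ((k : ℝ) - l) * del α b j := by unfold ang; ring
  have := chord_ge (a := ang α b j k) (b := ang α b j l) (by
    rw [abs_le]
    constructor <;>
    linarith [ang_ge h0 h1 hb j k, ang_ge h0 h1 hb j l, ang_le h0 h1 hb j k k.2.le, ang_le h0 h1 hb j l l.2.le,
      sj_le j, sj_pos j])
  rwa [e, abs_mul, abs_of_pos (del_pos h0 h1 hb j)] at this

theorem core_unique (z : ℂ) (i k : Idx α b) (hi : ‖z - pt α b i‖ < rho α (sc α b) i)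
    (hk : ‖z - pt α b k‖ < rho α (sc α b) k) : i = k := by
  have := near_unique h0 h1 hb z i k (hi.trans_le (rho_le h0 h1 hb i)) (hk.trans_le (rho_le h0 h1 hb k))
  obtain ⟨j, a⟩ := i
  obtain ⟨j', c⟩ := k
  simp only at this
  subst this
  by_contra hne
  have hab : (a : ℕ) ≠ c := fun h => hne (by rw [Fin.ext h])
  have a1 : (1 : ℝ) ≤ |(a : ℝ) - c| := by
    have : (1 : ℤ) ≤ |((a : ℕ) : ℤ) - (c : ℕ)| := Int.one_le_abs (by omega)
    exact_mod_cast this
  have a2 := pt_sep h0 h1 hb j a c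
  have a3 := rho_del h0 h1 hb ⟨j, a⟩
  have a4 := rho_del h0 h1 hb ⟨j, c⟩
  have a5 := norm_sub_le_norm_sub_add_norm_sub (pt α b ⟨j, a⟩) z (pt α b ⟨j, c⟩)
  rw [norm_sub_rev (pt α b ⟨j, a⟩) z] at a5
  have a6 := del_pos h0 h1 hb j
  simp only at a3 a4
  nlinarith

theorem summable_cc (κ : ℝ) (hκ : 0 < κ) : Summable (cc α κ (sc α b)) := by
  have hc : ∀ i : Idx α b, 0 ≤ cc α κ (sc α b) i := fun i =>
    div_nonneg (mul_nonneg hκ.le (rpow_nonneg (sj_pos _).le _)) (sj_pos _).le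
  rw [summable_sigma_of_nonneg hc]
  refine ⟨fun j => (hasSum_fintype _).summable, ?_⟩
  have hs : Summable fun j : ℕ => κ / 4 * ((((j + 1 : ℕ) : ℝ)) ^ b)⁻¹ :=
    ((summable_nat_add_iff 1).2 (summable_nat_rpow_inv.2 hb)).mul_left _
  refine Summable.of_nonneg_of_le (fun j => tsum_nonneg fun k => hc _) (fun j => ?_) hs
  have e : ∑' k : Fin (num α b j), cc α κ (sc α b) ⟨j, k⟩ = num α b j * (κ * sj j ^ (1 / α) / sj j) := by
    simp [tsum_fintype, cc, rho, sc]
  rw [e]
  have a1 := num_mul h0 h1 hb j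
  have a2 := sj_pos j
  have a3 : 0 < ((j : ℝ) + 1) ^ b := by positivity
  unfold del lam at a1
  push_cast
  rw [← div_eq_mul_inv, ← mul_div_assoc, div_le_div_iff₀ a2 a3]
  nlinarith

theorem log_num_le (j : ℕ) : 1 + log (num α b j) ≤ (1 + 7 * (1 / α)) * ((j : ℝ) + 1) := by
  have hβ := one_lt_beta h0 h1
  have hj : (0 : ℝ) ≤ j := Nat.cast_nonneg j
  rcases Nat.eq_zero_or_pos (num α b j) with h | h
  · rw [h]; simp only [Nat.cast_zero, log_zero, add_zero]; nlinarith
  have a1 := num_mul h0 h1 hb j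
  have a2 := sj_pos j
  have a3 : 0 < sj j ^ (1 / α) := by positivity
  have a4 : (num α b j : ℝ) ≤ (sj j ^ (1 / α))⁻¹ := by
    rw [← one_div, le_div_iff₀ a3]
    have := lam_ge8 h0 h1 hb j
    have h5 : (0 : ℝ) ≤ num α b j * sj j ^ (1 / α) := by positivity
    unfold del at a1
    nlinarith [sj_le j]
  have a5 : log (num α b j) ≤ 1 / α * (((j : ℝ) + 1) * log 8) := by
    refine (log_le_log (by exact_mod_cast h) a4).trans_eq ?_
    rw [log_inv, log_rpow a2, sj, log_pow, one_div (8 : ℝ), log_inv]; push_cast; ring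
  have a6 : log 8 ≤ 7 := by linarith [log_le_sub_one_of_pos (show (0 : ℝ) < 8 by norm_num)]
  have a7 : 1 / α * (((j : ℝ) + 1) * log 8) ≤ 1 / α * (((j : ℝ) + 1) * 7) := by gcongr
  nlinarith

theorem home_sum (κ : ℝ) (hκ : 0 < κ) (z : ℂ) (j : ℕ) :
    ∑ k : Fin (num α b j), nc α κ (pt α b) (sc α b) z ⟨j, k⟩ ≤ κ * (2 + 7 * (1 / α)) / sj j := by
  have a2 := sj_pos j
  have hβ := one_lt_beta h0 h1
  rcases Nat.eq_zero_or_pos (num α b j) with h | h
  · have : IsEmpty (Fin (num α b j)) := by rw [h]; infer_instance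
    simp only [Finset.univ_eq_empty, Finset.sum_empty]; positivity
  have : Nonempty (Fin (num α b j)) := ⟨⟨0, h⟩⟩
  obtain ⟨k₀, -, hk₀⟩ := Finset.exists_min_image Finset.univ
    (fun k : Fin (num α b j) => ‖z - pt α b ⟨j, k⟩‖) Finset.univ_nonempty
  have a3 : 0 < sj j ^ (1 / α) := by positivity
  have a4 := del_pos h0 h1 hb j
  have a5 : 0 < lam b j := by linarith [lam_ge8 h0 h1 hb j]
  have hpt : ∀ k : Fin (num α b j), nc α κ (pt α b) (sc α b) z ⟨j, k⟩ ≤
      (if k = k₀ then κ / sj j else 0) + 4 * κ / (sj j * lam b j) * |(k : ℝ) - k₀|⁻¹ := by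
    intro k
    by_cases hk : k = k₀
    · subst hk
      simp only [if_true, sub_self, abs_zero, inv_zero, mul_zero, add_zero, nc, cc, rho, sc]
      split_ifs with hh
      · calc κ * sj j ^ (1 / α) / sj j / ‖z - pt α b ⟨j, k⟩‖
            ≤ κ * sj j ^ (1 / α) / sj j / sj j ^ (1 / α) := by gcongr
          _ = κ / sj j := by field_simp
      · positivity
    · have hkk : 0 < |(k : ℝ) - k₀| := by
        rw [abs_pos, sub_ne_zero]
        exact fun hh => hk (Fin.ext (by exact_mod_cast hh))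
      have b1 := pt_sep h0 h1 hb j k k₀
      have b2 := norm_sub_le_norm_sub_add_norm_sub (pt α b ⟨j, k⟩) z (pt α b ⟨j, k₀⟩)
      rw [norm_sub_rev (pt α b ⟨j, k⟩) z] at b2
      have b3 := hk₀ k (Finset.mem_univ _)
      have b4 : |(k : ℝ) - k₀| * del α b j / 4 ≤ ‖z - pt α b ⟨j, k⟩‖ := by linarith
      simp only [if_neg hk, zero_add, nc, cc, rho, sc]
      split_ifs with hh
      · calc κ * sj j ^ (1 / α) / sj j / ‖z - pt α b ⟨j, k⟩‖
            ≤ κ * sj j ^ (1 / α) / sj j / (|(k : ℝ) - k₀| * del α b j / 4) := by gcongr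
          _ = _ := by unfold del; field_simp
      · positivity
  refine (Finset.sum_le_sum fun k _ => hpt k).trans ?_
  rw [Finset.sum_add_distrib, ← Finset.mul_sum, Finset.sum_ite_eq' Finset.univ k₀,
    if_pos (Finset.mem_univ _),
    Fin.sum_univ_eq_sum_range (fun k : ℕ => |(k : ℝ) - (k₀ : ℕ)|⁻¹) (num α b j)]
  have c1 := sum_inv_dist_le (num α b j) k₀ k₀.2
  have c2 := log_num_le h0 h1 hb j
  have c3 := lam_ge h0 h1 hb j
  have c4 : ∑ k ∈ Finset.range (num α b j), |(k : ℝ) - (k₀ : ℕ)|⁻¹ ≤ (1 + 7 * (1 / α)) * lam b j / 4 := by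
    nlinarith
  calc _ ≤ κ / sj j + 4 * κ / (sj j * lam b j) * ((1 + 7 * (1 / α)) * lam b j / 4) := by gcongr
    _ = _ := by field_simp; ring

theorem exists_good : ∃ κ, Good α κ (pt α b) (sc α b) := by
  classical
  have hβ := one_lt_beta h0 h1
  have hM := summable_cc h0 h1 hb 1 one_pos
  have hc1 : ∀ i : Idx α b, 0 ≤ cc α 1 (sc α b) i := fun i =>
    div_nonneg (mul_nonneg zero_le_one (rpow_nonneg (sj_pos _).le _)) (sj_pos _).le
  obtain ⟨M, hMdef⟩ : ∃ M, M = ∑' i, cc α 1 (sc α b) i := ⟨_, rfl⟩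
  have hM0 : 0 ≤ M := hMdef ▸ tsum_nonneg hc1
  obtain ⟨κ, hκ⟩ : ∃ κ, κ = 1 / (4 * (17 * M + 5 * (2 + 7 * (1 / α)))) := ⟨_, rfl⟩
  have hD : 0 < 17 * M + 5 * (2 + 7 * (1 / α)) := by positivity
  have hκ0 : 0 < κ := by rw [hκ]; positivity
  refine ⟨κ, h0, h1.le, hκ0, ?_, fun i => by simp [pt], fun i => sj_pos _, pt_lo h0 h1 hb,
    pt_hi h0 h1 hb, fun i => by linarith [rho_le h0 h1 hb i, sj_pos i.1, show sc α b i = sj i.1 from rfl],
    ?_, core_unique h0 h1 hb, summable_cc h0 h1 hb κ hκ0, ?_⟩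
  · rw [hκ, div_le_one (by positivity)]; nlinarith
  · intro z hz1 F
    have hτ : 0 < ‖1 - z‖ := norm_pos_iff.2 (sub_ne_zero.2 hz1.symm)
    have hnc0 : ∀ i, 0 ≤ nc α κ (pt α b) (sc α b) z i := by
      intro i; unfold nc; split_ifs
      · exact div_nonneg (div_nonneg (mul_nonneg hκ0.le (rpow_nonneg (sj_pos _).le _))
          (sj_pos _).le) (norm_nonneg _)
      · exact le_rfl
    rw [← Finset.sum_filter_add_sum_filter_not F (fun i => ‖z - pt α b i‖ < sc α b i / 4)]
    have hnear : ∑ i ∈ F.filter (fun i => ‖z - pt α b i‖ < sc α b i / 4), nc α κ (pt α b) (sc α b) z i ≤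
        κ * (5 * (2 + 7 * (1 / α))) / ‖1 - z‖ := by
      rcases (F.filter (fun i => ‖z - pt α b i‖ < sc α b i / 4)).eq_empty_or_nonempty with h | ⟨i₀, hi₀⟩
      · rw [h, Finset.sum_empty]; positivity
      have hi₀' := (Finset.mem_filter.1 hi₀).2
      have hsub : F.filter (fun i => ‖z - pt α b i‖ < sc α b i / 4) ⊆
          Finset.univ.map (Function.Embedding.sigmaMk (β := fun j => Fin (num α b j)) i₀.1) := by
        rintro ⟨j, k⟩ hi
        have := near_unique h0 h1 hb z _ _ (Finset.mem_filter.1 hi).2 hi₀'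
        simp only at this
        subst this
        exact Finset.mem_map.2 ⟨k, Finset.mem_univ _, rfl⟩
      refine (Finset.sum_le_sum_of_subset_of_nonneg hsub fun i _ _ => hnc0 i).trans ?_
      rw [Finset.sum_map]
      refine (home_sum h0 h1 hb κ hκ0 z i₀.1).trans ?_
      have a3 := pt_hi h0 h1 hb i₀
      have a5 := norm_sub_le_norm_sub_add_norm_sub 1 (pt α b i₀) z
      rw [norm_sub_rev (pt α b i₀) z] at a5
      have a6 := sj_pos i₀.1
      simp only [sc] at a3 hi₀'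
      rw [div_le_div_iff₀ a6 hτ]
      have : ‖1 - z‖ ≤ 5 * sj i₀.1 := by linarith
      have h7 : 0 < κ * (2 + 7 * (1 / α)) := by positivity
      nlinarith
    have hfar : ∑ i ∈ F.filter (fun i => ¬ ‖z - pt α b i‖ < sc α b i / 4), nc α κ (pt α b) (sc α b) z i ≤
        κ * (17 * M) / ‖1 - z‖ := by
      have : ∀ i ∈ F.filter (fun i => ¬ ‖z - pt α b i‖ < sc α b i / 4),
          nc α κ (pt α b) (sc α b) z i ≤ κ * 17 / ‖1 - z‖ * cc α 1 (sc α b) i := by
        intro i hi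
        have b1 := not_lt.1 (Finset.mem_filter.1 hi).2
        have b2 := pt_hi h0 h1 hb i
        have b3 := norm_sub_le_norm_sub_add_norm_sub 1 (pt α b i) z
        rw [norm_sub_rev (pt α b i) z] at b3
        have b4 : ‖1 - z‖ / 17 ≤ ‖z - pt α b i‖ := by linarith
        have b5 := hc1 i
        have e : cc α κ (sc α b) i = κ * cc α 1 (sc α b) i := by unfold cc; ring
        unfold nc; split_ifs
        · rw [e]
          calc κ * cc α 1 (sc α b) i / ‖z - pt α b i‖ ≤ κ * cc α 1 (sc α b) i / (‖1 - z‖ / 17) := by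
                gcongr
            _ = _ := by field_simp
        · positivity
      refine (Finset.sum_le_sum this).trans ?_
      rw [← Finset.mul_sum]
      calc _ ≤ κ * 17 / ‖1 - z‖ * M := by
            gcongr
            rw [hMdef]; exact hM.sum_le_tsum _ fun i _ => hc1 i
        _ = _ := by ring
    refine (add_le_add hnear hfar).trans_eq ?_
    rw [hκ]; field_simp; ring
  · rw [tendsto_iff_norm_sub_tendsto_zero]
    have t1 : Tendsto (fun i : Idx α b => i.1) cofinite atTop := by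
      rw [← Nat.cofinite_eq_atTop]
      refine Tendsto.cofinite_of_finite_preimage_singleton fun j => ?_
      have : (fun i : Idx α b => i.1) ⁻¹' {j} ⊆ range (Sigma.mk j) := by
        rintro ⟨j', k⟩ hj
        simp only [mem_preimage, mem_singleton_iff] at hj
        subst hj; exact ⟨k, rfl⟩
      exact ((finite_range _).subset this).to_subtype
    have t2 : Tendsto (fun j => 4 * sj j) atTop (𝓝 0) := by
      have := ((tendsto_pow_atTop_nhds_zero_of_lt_one (r := (1 / 8 : ℝ)) (by norm_num)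
        (by norm_num)).comp (tendsto_add_atTop_nat 1)).const_mul 4
      simpa [sj] using this
    refine squeeze_zero (fun _ => norm_nonneg _) (fun i => ?_) (t2.comp t1)
    rw [norm_sub_rev]; exact pt_hi h0 h1 hb i

theorem eventually_del_le : ∀ᶠ j in atTop, del α b j ≤ 2 * sj j := by
  have hβ := one_lt_beta h0 h1
  have t := (tendsto_rpow_mul_exp_neg_mul_atTop_nhds_zero b ((1 / α - 1) * log 8)
    (mul_pos (by linarith) (log_pos (by norm_num)))).comp
    (tendsto_atTop_add_const_right atTop 1 tendsto_natCast_atTop_atTop)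
  filter_upwards [t.eventually (eventually_le_nhds (show (0 : ℝ) < 1 / 4 by norm_num))] with j hj
  simp only [Function.comp] at hj
  have a2 := sj_pos j
  have e : sj j ^ (1 / α) = sj j * exp (-((1 / α - 1) * log 8) * ((j : ℝ) + 1)) := by
    have : sj j ^ (1 / α) = sj j * sj j ^ (1 / α - 1) := by
      rw [rpow_sub_one a2.ne']; field_simp
    rw [this, rpow_def_of_pos a2, sj, log_pow, one_div (8 : ℝ), log_inv]
    congr 2; push_cast; ring
  unfold del lam
  rw [e]
  nlinarith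

theorem del_succ (hb2 : b ≤ 2) (j : ℕ) : del α b (j + 1) ≤ del α b j / 2 := by
  have hβ := one_lt_beta h0 h1
  have a1 : sj (j + 1) ^ (1 / α) ≤ sj j ^ (1 / α) / 8 := by
    have e : sj (j + 1) = sj j * (1 / 8) := by unfold sj; rw [pow_succ]
    have : (1 / 8 : ℝ) ^ (1 / α) ≤ (1 / 8) ^ (1 : ℝ) :=
      rpow_le_rpow_of_exponent_ge (by norm_num) (by norm_num) hβ.le
    rw [rpow_one] at this
    rw [e, mul_rpow (sj_pos j).le (by norm_num)]
    nlinarith [rpow_pos_of_pos (sj_pos j) (1 / α)]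
  have a2 : lam b (j + 1) ≤ 4 * lam b j := by
    have hj : (0 : ℝ) ≤ j := Nat.cast_nonneg j
    have c1 : (((j + 1 : ℕ) : ℝ) + 1) ^ b ≤ (2 * ((j : ℝ) + 1)) ^ b := by
      gcongr
      push_cast; linarith
    have c2 : (2 : ℝ) ^ b ≤ 2 ^ (2 : ℝ) := by gcongr; norm_num
    rw [mul_rpow (by norm_num) (by positivity)] at c1
    rw [rpow_two] at c2
    unfold lam
    nlinarith [rpow_pos_of_pos (show (0 : ℝ) < j + 1 by positivity) b]
  have a3 := lam_ge8 h0 h1 hb (j + 1)
  have a4 := rpow_pos_of_pos (sj_pos j) (1 / α)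
  unfold del
  calc _ ≤ sj j ^ (1 / α) / 8 * (4 * lam b j) := by gcongr
    _ = _ := by ring

theorem del_le_one (hb2 : b ≤ 2) (j : ℕ) : del α b j ≤ 1 := by
  induction j with
  | zero =>
    have : (1 / 8 : ℝ) ^ (1 / α) ≤ (1 / 8) ^ (1 : ℝ) :=
      rpow_le_rpow_of_exponent_ge (by norm_num) (by norm_num) (one_lt_beta h0 h1).le
    rw [rpow_one] at this
    simp only [del, sj, lam, zero_add, pow_one, Nat.cast_zero, one_rpow]
    linarith
  | succ j ih => linarith [del_succ h0 h1 hb hb2 j]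

theorem meas_ge {j : ℕ} (hj : del α b j ≤ 2 * sj j) {δ : ℝ} (hδ : del α b j ≤ δ) :
    sj j ≤ volume.real {θ ∈ Ico 0 (2 * π) |
      ∃ e ∈ insert 1 (range (pt α b)), ‖circleMap 0 1 θ - e‖ ≤ δ} := by
  have hd := del_pos h0 h1 hb j
  have a2 := sj_pos j
  have b1 : sj j ≤ ang α b j (num α b j) - 2 * sj j := by
    have c1 : (1 : ℝ) ≤ num α b j := by
      have : 1 ≤ num α b j := Nat.le_floor (by rw [Nat.cast_one, le_div_iff₀ hd]; linarith)
      exact_mod_cast this
    have c2 := Nat.lt_floor_add_one (2 * sj j / del α b j)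
    rw [div_lt_iff₀ hd] at c2
    change 2 * sj j < ((num α b j : ℝ) + 1) * del α b j at c2
    unfold ang; nlinarith
  refine b1.trans ?_
  rw [← volume_real_Ico_of_le (by linarith)]
  refine measureReal_mono (fun θ hθ => ⟨⟨by linarith [hθ.1], ?_⟩, ?_⟩)
    (measure_ne_top_of_subset (sep_subset _ _) measure_Ico_lt_top.ne)
  · linarith [hθ.2, ang_le h0 h1 hb j _ le_rfl, sj_le j, pi_gt_three]
  · have hx : 0 ≤ (θ - 2 * sj j) / del α b j := div_nonneg (by linarith [hθ.1]) hd.le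
    have hk : ⌊(θ - 2 * sj j) / del α b j⌋₊ < num α b j := by
      rw [Nat.floor_lt hx, div_lt_iff₀ hd]
      have := hθ.2; unfold ang at this; linarith
    refine ⟨pt α b ⟨j, ⟨_, hk⟩⟩, mem_insert_of_mem _ ⟨_, rfl⟩, (chord_le _ _).trans ?_⟩
    have b1 := Nat.floor_le hx
    have b2 := Nat.lt_floor_add_one ((θ - 2 * sj j) / del α b j)
    rw [le_div_iff₀ hd] at b1
    rw [div_lt_iff₀ hd] at b2
    simp only [ang]
    rw [abs_le]; constructor <;> linarith

theorem not_summable (hb2 : b ≤ 2) {p : ℝ} (hp : 0 < p) (hbp : b * α * p ≤ 1) :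
    ¬ Summable fun k : ℕ => ((2 : ℝ) ^ ((k : ℝ) * α) * volume.real {θ ∈ Ico 0 (2 * π) |
      ∃ e ∈ insert 1 (range (pt α b)), ‖circleMap 0 1 θ - e‖ ≤ (1 / 2) ^ k}) ^ p := by
  intro hs
  choose k hk1 hk2 using fun j => exists_nat_pow_near_of_lt_one (del_pos h0 h1 hb j)
    (del_le_one h0 h1 hb hb2 j) (show (0 : ℝ) < 1 / 2 by norm_num) (by norm_num)
  have hmono : StrictMono k := strictMono_nat_of_lt_succ fun j => by
    have a1 : (1 / 2 : ℝ) ^ (k (j + 1) + 1) < (1 / 2) ^ (k j + 1) := by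
      have := hk1 (j + 1)
      rw [pow_succ _ (k j)]
      linarith [del_succ h0 h1 hb hb2 j, hk2 j]
    have := (pow_lt_pow_iff_right_of_lt_one₀ (by norm_num) (by norm_num)).1 a1
    omega
  apply not_summable_natCast_inv
  rw [← summable_nat_add_iff 1]
  refine Summable.of_norm_bounded_eventually_nat
    ((hs.comp_injective hmono.injective).mul_left (16 ^ p)) ?_
  filter_upwards [eventually_del_le h0 h1 hb] with j hj
  have a2 := sj_pos j
  have hj1 : (1 : ℝ) ≤ (j : ℝ) + 1 := by linarith [Nat.cast_nonneg (α := ℝ) j]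
  have b1 := meas_ge h0 h1 hb hj (hk2 j)
  have b2 : ((1 / 2 : ℝ) ^ k j) ^ α ≤ 16 * (sj j * ((j : ℝ) + 1) ^ (b * α)) := by
    have c0 : (1 / 2 : ℝ) ^ k j ≤ 16 * (sj j ^ (1 / α) * ((j : ℝ) + 1) ^ b) := by
      have := hk1 j
      rw [pow_succ] at this
      unfold del lam at this
      linarith
    refine (rpow_le_rpow (by positivity) c0 h0.le).trans ?_
    rw [mul_rpow (by positivity) (by positivity), mul_rpow (by positivity) (by positivity),
      ← rpow_mul a2.le, ← rpow_mul (by positivity), one_div_mul_cancel h0.ne', rpow_one]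
    have : (16 : ℝ) ^ α ≤ 16 ^ (1 : ℝ) := by gcongr; norm_num
    rw [rpow_one] at this
    gcongr
  have b3 : (2 : ℝ) ^ ((k j : ℝ) * α) = (((1 / 2 : ℝ) ^ k j) ^ α)⁻¹ := by
    rw [rpow_mul (by norm_num), rpow_natCast, one_div, inv_pow, inv_rpow (by positivity), inv_inv]
  have b4 : (((j : ℝ) + 1) ^ (b * α))⁻¹ ≤ 16 * ((2 : ℝ) ^ ((k j : ℝ) * α) * sj j) := by
    rw [b3]
    calc (((j : ℝ) + 1) ^ (b * α))⁻¹
        = 16 * ((16 * (sj j * ((j : ℝ) + 1) ^ (b * α)))⁻¹ * sj j) := by field_simp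
      _ ≤ _ := by gcongr
  rw [Real.norm_eq_abs, abs_of_nonneg (by positivity), Function.comp,
    ← mul_rpow (by norm_num) (by positivity)]
  push_cast
  calc ((j : ℝ) + 1)⁻¹ = (((j : ℝ) + 1) ^ (1 : ℝ))⁻¹ := by rw [rpow_one]
    _ ≤ (((j : ℝ) + 1) ^ (b * α * p))⁻¹ := by gcongr
    _ = ((((j : ℝ) + 1) ^ (b * α))⁻¹) ^ p := by
      rw [rpow_mul (by positivity) (b * α), inv_rpow (by positivity)]
    _ ≤ _ := by
      refine rpow_le_rpow (by positivity) (b4.trans ?_) hp.le
      gcongr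

theorem pt_ne_sphere : insert 1 (range (pt α b)) ≠ sphere 0 1 := by
  intro h
  have : (-1 : ℂ) ∈ insert 1 (range (pt α b)) := by rw [h]; simp
  rcases this with h' | ⟨i, h'⟩
  · norm_num at h'
  · have a1 := pt_hi h0 h1 hb i
    have a2 := sj_le i.1
    rw [h', sub_neg_eq_add, one_add_one_eq_two, Complex.norm_two] at a1
    simp only [sc] at a1
    linarith

end

end Pool.Agent.MP_129fce_an.Lz
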