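import Pool.Agent.MP_129fce_an.Lz.Loc
import Pool.Agent.MP_129fce_an.Lz.Comb
import Pool.Agent.MP_129fce_an.Lz.Sharp

open Pool.Agent.MP_129fce_an Pool.Agent.MP_129fce_an.Lz Real MeasureTheory Filter Topology

/-- For `0 < α < 1` and `p > 0`: every peak set `E ≠ 𝕋` for `A_α` has
`∑ k, (2 ^ (k α) m (E_δ)) ^ p < ∞` with `δ = 2 ^ (-k)` if and only if `1 / α ≤ p`. -/
theorem Pool.Agent.MP_129fce_an.Lz.threshold (α p : ℝ) (h0 : 0 < α)
    (h1 : α < 1) (hp : 0 < p) :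
    (∀ E : Set ℂ, IsPeakSet α E → E ≠ Metric.sphere 0 1 →
      Summable fun k : ℕ => ((2 : ℝ) ^ ((k : ℝ) * α) *
        (volume {θ ∈ Set.Ico 0 (2 * π) |
          ∃ e ∈ E, ‖circleMap 0 1 θ - e‖ ≤ (1 / 2) ^ k}).toReal) ^ p) ↔ 1 / α ≤ p := by
  constructor
  · intro h
    by_contra hlt
    have hαp : α * p < 1 := by
      rw [not_le, lt_div_iff₀ h0] at hlt
      linarith
    have hb : 1 < min 2 (1 / (α * p)) :=
      lt_min (by norm_num) (by rw [lt_div_iff₀ (by positivity)]; linarith)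
    obtain ⟨κ, H⟩ := Lz.exists_good h0 h1 hb
    refine not_summable h0 h1 hb (min_le_left _ _) hp ?_
      (h _ H.isPeakSet (pt_ne_sphere h0 h1 hb))
    have := min_le_right 2 (1 / (α * p))
    rw [le_div_iff₀ (by positivity)] at this
    linarith
  · intro hle E hE hne
    obtain ⟨H, C, A, D, hz⟩ := exists_data h0 h1.le hE hne
    obtain ⟨ι, w, B, g1, g2⟩ := D.exists_weights h0 hE.2.1 hz
    obtain ⟨m, hm⟩ : ∃ m : ℕ → ℝ, ∀ k, m k = volume.real {θ ∈ Set.Ico 0 (2 * π) |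
      ∃ e ∈ E, ‖circleMap 0 1 θ - e‖ ≤ (1 / 2) ^ k} := ⟨_, fun _ => rfl⟩
    have hm0 : ∀ k, 0 ≤ m k := fun k => hm k ▸ measureReal_nonneg
    have hs := comb w m (A := 4 * A) (L := volume.real (Set.Ico 0 (2 * π))) (one_lt_beta h0 h1) hm0
      (fun k => hm k ▸ measureReal_mono (Set.sep_subset _ _) measure_Ico_lt_top.ne) g1
      (fun ε hε k F hF => hm k ▸ g2 ε _ hε (by positivity) F hF)
    have e : ∀ k : ℕ, (2 : ℝ) ^ k * m k ^ (1 / α) = (2 ^ ((k : ℝ) * α) * m k) ^ (1 / α) := by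
      intro k
      rw [mul_rpow (by positivity) (hm0 k), ← rpow_mul (by norm_num), mul_assoc,
        mul_one_div_cancel h0.ne', mul_one, rpow_natCast]
    simp only [e] at hs
    refine Summable.of_norm_bounded_eventually_nat hs ?_
    filter_upwards [hs.tendsto_atTop_zero.eventually (eventually_le_nhds one_pos)] with k hk
    have hx : 0 ≤ (2 : ℝ) ^ ((k : ℝ) * α) * m k := mul_nonneg (by positivity) (hm0 k)
    change ‖((2 : ℝ) ^ ((k : ℝ) * α) * volume.real _) ^ p‖ ≤ _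
    rw [← hm, Real.norm_eq_abs, abs_of_nonneg (rpow_nonneg hx _)]
    refine rpow_le_rpow_of_exponent_ge' hx ?_ (by positivity) hle
    exact not_lt.1 fun h => (one_lt_rpow h (by positivity)).not_ge hk
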